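import Pool.Agent.H98R3.SN.N9

/-!
# MP_0c7e55_an: no pair (positive entropy measure, non-deterministic set) preserves simple normality

Full (negative) answer to Q1, and with it to Q2.
-/

set_option autoImplicit false

open MeasureTheory
open Pool.Agent.H98R3.SN
open Pool.Agent.Helper179.KS

namespace Pool.Agent.Results.MP_0c7e55_an.NoPair

/-- For every countable alphabet, every shift-invariant probability measure `μ` of positive
Kolmogorov-Sinai entropy and every infinite non-deterministic set `S` of positive integers, there
is a `μ`-generic sequence `x` whose restriction `x|_S` is not simply `μ`-normal. -/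
theorem result {Λ : Type*} [Countable Λ] [MeasurableSpace Λ] [DiscreteMeasurableSpace Λ]
    (μ : Measure (ℕ → Λ)) [IsProbabilityMeasure μ] (hμ : MeasurePreserving shift μ μ)
    (hpos : 0 < ksEntropy μ shift) (S : Set ℕ) (hS : S.Infinite) (hnd : ¬ Deterministic S) :
    ∃ x : ℕ → Λ, IsGeneric μ x ∧ ¬ SimplyNormal μ (restrictTo x S) := by
  have h := Pool.Agent.H98R3.SN.main μ hμ hpos S hS hnd
  unfold PreservesSimpleNormality at h
  push Not at h
  exact h

end Pool.Agent.Results.MP_0c7e55_an.NoPair
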